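import Mathlib

namespace Pool.Agent.Results.MP_af84f5_co.Forests

open Relation

/-- A loopless digraph with at most one arc between any two vertices. -/
structure Dig (V : Type) where
  /-- `Adj u v`: there is an arc from `u` to `v` -/
  Adj : V → V → Prop
  asymm : ∀ u v, Adj u v → ¬ Adj v u

/-- There is no closed directed walk. -/
def NoDiCycle {V : Type} (r : V → V → Prop) : Prop := ∀ v, ¬ TransGen r v v

/-- An acyclic digraph. -/
def Dig.Acyclic {V : Type} (D : Dig V) : Prop := NoDiCycle D.Adj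

/-- The underlying simple graph. -/
def Dig.graph {V : Type} (D : Dig V) : SimpleGraph V :=
  SimpleGraph.fromRel D.Adj

/-- The set of arcs. -/
def Dig.arcs {V : Type} (D : Dig V) : Set (V × V) := {e | D.Adj e.1 e.2}

/-- `D.rev S` is the arc relation of the digraph obtained by reversing the arcs in `S`. -/
def Dig.rev {V : Type} (D : Dig V) (S : Set (V × V)) (u v : V) : Prop :=
  (D.Adj u v ∧ (u, v) ∉ S) ∨ (D.Adj v u ∧ (v, u) ∈ S)

/-- The acyclic reorientation poset: the arc sets `S` such that reversing `S` gives an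
acyclic digraph, ordered by inclusion. -/
def AR {V : Type} (D : Dig V) : Type :=
  {S : Set (V × V) // S ⊆ D.arcs ∧ NoDiCycle (D.rev S)}

instance {V : Type} (D : Dig V) : PartialOrder (AR D) := Subtype.partialOrder _

/-- The sublattice of `L` generated by `X` (the intersection of all sublattices
containing `X`), as a set. -/
def gen {L : Type} [Lattice L] (X : Set L) : Set L :=
  {a | ∀ S : Sublattice L, X ⊆ (S : Set L) → a ∈ S}

/-- Supersolvability (Stanley 1972): there is a maximal chain `M` such that for every chain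
`K` the sublattice generated by `M ∪ K` is distributive. -/
def Supersolvable (L : Type) [Lattice L] : Prop :=
  ∃ M : Set L, IsMaxChain (· ≤ ·) M ∧ ∀ K : Set L, IsChain (· ≤ ·) K →
    ∀ a ∈ gen (M ∪ K), ∀ b ∈ gen (M ∪ K), ∀ c ∈ gen (M ∪ K),
      a ⊓ (b ⊔ c) = (a ⊓ b) ⊔ (a ⊓ c)

/-- The poset `P` is a lattice. -/
def IsLatticeOrder (P : Type) [inst : PartialOrder P] : Prop :=
  ∃ L : Lattice P, L.toPartialOrder = inst

/-- The poset `P` is a lattice, and that lattice is supersolvable. -/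
def IsSupersolvableLattice (P : Type) [inst : PartialOrder P] : Prop :=
  ∃ L : Lattice P, L.toPartialOrder = inst ∧ @Supersolvable P L

/-- Peo-consistency of the subdigraph induced by the vertex set `U`. -/
inductive PeoOn {V : Type} (D : Dig V) : Set V → Prop
  | small (U : Set V) (h : U.Subsingleton) : PeoOn D U
  | step (U : Set V) (v : V) (hv : v ∈ U)
      (hsrc : (∀ w ∈ U, ¬ D.Adj w v) ∨ (∀ w ∈ U, ¬ D.Adj v w))
      (hsimp : ∀ a ∈ U, ∀ b ∈ U, D.graph.Adj v a → D.graph.Adj v b → a ≠ b → D.graph.Adj a b)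
      (hrec : PeoOn D (U \ {v})) : PeoOn D U

/-- `D` is peo-consistent. -/
def Dig.PeoConsistent {V : Type} (D : Dig V) : Prop := PeoOn D Set.univ

/-! ### General order theory -/

lemma generic_of_ss (P : Type) [inst : PartialOrder P] (h : IsSupersolvableLattice P) :
    (∀ x y : P, ∃ z, x ≤ z ∧ y ≤ z ∧ ∀ w, x ≤ w → y ≤ w → z ≤ w) ∧
    ∃ M : Set P, IsMaxChain (· ≤ ·) M ∧ ∀ x ∈ M, ∀ y ∈ M, ∀ z : P, x ≤ y →
      (∀ w, x ≤ w → z ≤ w → y ≤ w) → (∀ w, w ≤ y → w ≤ z → w ≤ x) → x = y := by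
  obtain ⟨L, rfl, M, hM, h⟩ := h
  refine ⟨fun x y => ⟨x ⊔ y, le_sup_left, le_sup_right, fun w => sup_le⟩, M, hM, ?_⟩
  intro x hx y hy z hxy hj hm
  have h1 := h {z} (by simp [IsChain]) y (fun S hS => hS (Or.inl hy)) x
    (fun S hS => hS (Or.inl hx)) z (fun S hS => hS (Or.inr rfl))
  have h2 : y ≤ x ⊔ z := hj _ le_sup_left le_sup_right
  have h3 : y ⊓ z ≤ x := hm _ inf_le_left inf_le_right
  rw [inf_eq_left.2 h2, inf_eq_right.2 hxy] at h1
  apply le_antisymm hxy
  rw [h1]
  exact sup_le le_rfl h3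

lemma ss_of_distrib (P : Type) [inst : PartialOrder P] (L : DistribLattice P)
    (h : L.toLattice.toPartialOrder = inst) : IsSupersolvableLattice P := by
  subst h
  exact ⟨L.toLattice, rfl, _, maxChain_spec, fun K _ a _ b _ c _ => inf_sup_left a b c⟩

/-! ### Ranks -/

variable {V : Type} {D : Dig V}

lemma noDiCycle_of_rank {α : Type} [Preorder α] {r : V → V → Prop} (f : V → α)
    (h : ∀ u v, r u v → f u < f v) : NoDiCycle r := by
  intro v hv
  have key : ∀ {a b}, TransGen r a b → f a < f b := by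
    intro a b hab
    induction hab with
    | single h' => exact h _ _ h'
    | tail _ h' ih => exact ih.trans (h _ _ h')
  exact lt_irrefl _ (key hv)

lemma exists_rank [Finite V] {r : V → V → Prop} (h : NoDiCycle r) :
    ∃ f : V → ℕ, ∀ u v, r u v → f u < f v := by
  classical
  cases nonempty_fintype V
  refine ⟨fun v => (Finset.univ.filter (fun w => TransGen r w v)).card,
    fun u v huv => Finset.card_lt_card ?_⟩
  rw [Finset.ssubset_iff_of_subset]
  · exact ⟨u, by simp [TransGen.single huv], by simpa using h u⟩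
  · intro w hw
    simp only [Finset.mem_filter, Finset.mem_univ, true_and] at hw ⊢
    exact hw.tail huv

lemma rtg_mono {r : V → V → Prop} {f : V → ℕ} (h : ∀ u v, r u v → f u < f v) {a b : V}
    (hab : ReflTransGen r a b) : f a ≤ f b := by
  induction hab with
  | refl => exact le_rfl
  | tail _ h' ih => exact ih.trans (h _ _ h').le

lemma flip_one [Finite V] {S : Set (V × V)}
    (hac : NoDiCycle (D.rev S)) {u v : V} (huv : D.Adj u v)
    (hr : ¬ ReflTransGen (fun a b => D.rev S a b ∧ (a, b) ≠ (u, v)) u v) :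
    NoDiCycle (D.rev (insert (u, v) S)) := by
  classical
  obtain ⟨f, hf⟩ := exists_rank hac
  set X : Set V := {w | ReflTransGen (fun a b => D.rev S a b ∧ (a, b) ≠ (u, v)) u w} with hX
  have main : ∀ a b, D.rev S a b → (a, b) ≠ (u, v) →
      (toLex ((if a ∈ X then 1 else 0 : ℕ), f a) : ℕ ×ₗ ℕ) <
        toLex ((if b ∈ X then 1 else 0 : ℕ), f b) := by
    intro a b hs hne
    rw [Prod.Lex.toLex_lt_toLex]
    by_cases ha : a ∈ X
    · have hb : b ∈ X := ReflTransGen.tail ha ⟨hs, hne⟩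
      simp only [ha, hb, if_true]
      exact Or.inr ⟨trivial, hf _ _ hs⟩
    · by_cases hb : b ∈ X
      · simp [ha, hb]
      · simp only [ha, hb, if_false]
        exact Or.inr ⟨trivial, hf _ _ hs⟩
  apply noDiCycle_of_rank (α := ℕ ×ₗ ℕ) (fun w => toLex ((if w ∈ X then 1 else 0 : ℕ), f w))
  intro a b hab
  rcases hab with ⟨h1, h2⟩ | ⟨h1, h2⟩
  · exact main a b (Or.inl ⟨h1, fun h => h2 (Set.mem_insert_of_mem _ h)⟩)
      (fun h => h2 (h ▸ Set.mem_insert _ _))
  · rcases h2 with h2 | h2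
    · obtain ⟨rfl, rfl⟩ := Prod.mk.inj h2
      rw [Prod.Lex.toLex_lt_toLex]
      have ha : a ∉ X := hr
      have hb : b ∈ X := ReflTransGen.refl
      simp [ha, hb]
    · refine main a b (Or.inr ⟨h1, h2⟩) ?_
      rintro ⟨⟩
      exact D.asymm _ _ huv h1

lemma rtg_eq_of_rank {r : V → V → Prop} {f : V → ℕ} (h : ∀ u v, r u v → f u < f v) {a b : V}
    (hab : ReflTransGen r a b) (he : f b ≤ f a) : a = b := by
  rcases ReflTransGen.cases_tail hab with h' | ⟨c, hac, hcb⟩
  · exact h'.symm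
  · exact absurd (lt_of_le_of_lt (rtg_mono h hac) (h _ _ hcb)) (not_lt.2 he)

lemma exists_flip [Finite V] {S T : Set (V × V)} (hacS : NoDiCycle (D.rev S))
    (hT : T ⊆ D.arcs) (hacT : NoDiCycle (D.rev T)) (hST : S ⊆ T) (hne : (T \ S).Nonempty) :
    ∃ e ∈ T \ S, NoDiCycle (D.rev (insert e S)) := by
  classical
  obtain ⟨f, hf⟩ := exists_rank hacS
  obtain ⟨t, ht⟩ := exists_rank hacT
  obtain ⟨⟨u, v⟩, he, hmin⟩ := Set.exists_min_image (T \ S) (fun e => f e.2 - f e.1)
    (Set.toFinite _) hne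
  have huv : D.Adj u v := hT he.1
  have hfuv : f u < f v := hf _ _ (Or.inl ⟨huv, he.2⟩)
  refine ⟨(u, v), he, flip_one hacS huv ?_⟩
  intro hr
  have hf' : ∀ a b, (D.rev S a b ∧ (a, b) ≠ (u, v)) → f a < f b := fun a b h => hf _ _ h.1
  have key : ∀ w, ReflTransGen (fun a b => D.rev S a b ∧ (a, b) ≠ (u, v)) u w →
      (f w < f v ∨ w = v) → t u ≤ t w := by
    intro w hw
    induction hw with
    | refl => intro _; exact le_rfl
    | @tail b c hb hbc ih =>
      intro hc
      have hbc' : f b < f c := hf _ _ hbc.1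
      have hcv : f c ≤ f v := by
        rcases hc with hc | rfl
        · exact hc.le
        · exact le_rfl
      have ih' := ih (Or.inl (lt_of_lt_of_le hbc' hcv))
      have hub : f u ≤ f b := rtg_mono hf' hb
      have : t b < t c := by
        apply ht
        rcases hbc.1 with ⟨h1, h2⟩ | ⟨h1, h2⟩
        · left
          refine ⟨h1, fun h3 => ?_⟩
          have := hmin (b, c) ⟨h3, h2⟩
          simp only at this
          have h4 : f b = f u ∧ f c = f v := by omega
          have h5 : u = b := rtg_eq_of_rank hf' hb h4.1.le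
          have h6 : c = v := by
            rcases hc with hc | hc
            · omega
            · exact hc
          exact hbc.2 (by rw [h5, h6])
        · right
          exact ⟨h1, hST h2⟩
      omega
  have h1 := key v hr (Or.inr rfl)
  have h2 : t v < t u := ht _ _ (Or.inr ⟨huv, he.1⟩)
  omega

lemma exists_drop {r : V → V → Prop} {s : V → ℕ} {u v : V} (h : ReflTransGen r u v)
    (hs : s v < s u) : ∃ a b, ReflTransGen r u a ∧ r a b ∧ ReflTransGen r b v ∧ s b < s a := by
  by_contra hcon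
  push Not at hcon
  have key : ∀ w, ReflTransGen r u w → ReflTransGen r w v → s u ≤ s w := by
    intro w hw
    induction hw with
    | refl => intro _; exact le_rfl
    | @tail b c hb hbc ih =>
      intro hc
      have := hcon b c hb hbc hc
      exact (ih (ReflTransGen.head hbc hc)).trans this
  exact absurd (key v h ReflTransGen.refl) (not_le.2 hs)

lemma key [Finite V] (hD : D.Acyclic) {x y : AR D} {u v : V}
    (huv : D.Adj u v) (hy : y.1 = insert (u, v) x.1)
    (hpath : ReflTransGen (fun a b => D.Adj a b ∧ (a, b) ≠ (u, v)) u v) :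
    ∃ z : AR D, (u, v) ∉ z.1 ∧ ∀ w : AR D, x ≤ w → z ≤ w → (u, v) ∈ w.1 := by
  classical
  obtain ⟨s, hs⟩ := exists_rank y.2.2
  have hsuv : s v < s u := hs _ _ (Or.inr ⟨huv, by rw [hy]; exact Set.mem_insert _ _⟩)
  obtain ⟨a, b, hua, hab, hbv, hsab⟩ := exists_drop hpath hsuv
  have habx : (a, b) ∈ x.1 := by
    by_contra hn
    have : (a, b) ∉ y.1 := by
      rw [hy]
      rintro (h | h)
      · exact hab.2 h
      · exact hn h
    exact absurd (hs _ _ (Or.inl ⟨hab.1, this⟩)) (not_lt.2 hsab.le)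
  obtain ⟨ρ, hρ⟩ := exists_rank hD
  have hρ' : ∀ c d, (D.Adj c d ∧ (c, d) ≠ (u, v)) → ρ c < ρ d := fun c d h => hρ _ _ h.1
  have hρab : ρ a < ρ b := hρ _ _ hab.1
  have hua' : ρ u ≤ ρ a := rtg_mono hρ' hua
  have hbv' : ρ b ≤ ρ v := rtg_mono hρ' hbv
  let Z : Set (V × V) := {e | D.Adj e.1 e.2 ∧ ¬ (ρ e.1 < ρ b ∧ ¬ ρ e.2 < ρ b)}
  have hZ : NoDiCycle (D.rev Z) := by
    apply noDiCycle_of_rank (α := ℕ ×ₗ ℕᵒᵈ)
      (fun w => toLex ((if ρ w < ρ b then 0 else 1 : ℕ), OrderDual.toDual (ρ w)))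
    rintro c d (⟨h1, h2⟩ | ⟨h1, h2⟩)
    · rw [Prod.Lex.toLex_lt_toLex]
      have h3 : ρ c < ρ b ∧ ¬ ρ d < ρ b := by
        by_contra h4
        exact h2 ⟨h1, h4⟩
      simp [h3.1, h3.2]
    · rw [Prod.Lex.toLex_lt_toLex]
      have h3 : ρ d < ρ c := hρ _ _ h1
      have h4 := h2.2
      simp only at h4
      by_cases h5 : ρ d < ρ b
      · have h6 : ρ c < ρ b := by
          by_contra h7
          exact h4 ⟨h5, h7⟩
        simp only [h5, h6, if_true]
        exact Or.inr ⟨trivial, OrderDual.toDual_lt_toDual.2 h3⟩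
      · have h6 : ¬ ρ c < ρ b := by omega
        simp only [h5, h6, if_false]
        exact Or.inr ⟨trivial, OrderDual.toDual_lt_toDual.2 h3⟩
  refine ⟨⟨Z, fun e he => he.1, hZ⟩, ?_, ?_⟩
  · intro h
    exact h.2 ⟨by simp only; omega, by simp only; omega⟩
  · intro w hxw hzw
    by_contra hn
    obtain ⟨t, ht⟩ := exists_rank w.2.2
    have htuv : t u < t v := ht _ _ (Or.inl ⟨huv, hn⟩)
    have k1 : ∀ c, ReflTransGen (fun a b => D.Adj a b ∧ (a, b) ≠ (u, v)) u c →
        ρ c < ρ b → t c ≤ t u := by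
      intro c hc
      induction hc with
      | refl => intro _; exact le_rfl
      | @tail c d hc hcd ih =>
        intro hd
        have h1 : ρ c < ρ d := hρ _ _ hcd.1
        have h2 := ih (by omega)
        have h3 : (c, d) ∈ Z := ⟨hcd.1, fun h => h.2 hd⟩
        have h4 : t d < t c := ht _ _ (Or.inr ⟨hcd.1, hzw h3⟩)
        omega
    have k2 : ∀ c, ReflTransGen (fun a b => D.Adj a b ∧ (a, b) ≠ (u, v)) b c →
        t c ≤ t b := by
      intro c hc
      induction hc with
      | refl => exact le_rfl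
      | @tail c d hc hcd ih =>
        have h1 : ρ b ≤ ρ c := rtg_mono hρ' hc
        have h3 : (c, d) ∈ Z := ⟨hcd.1, fun h => absurd h.1 (not_lt.2 h1)⟩
        have h4 : t d < t c := ht _ _ (Or.inr ⟨hcd.1, hzw h3⟩)
        omega
    have h1 := k1 a hua hρab
    have h2 := k2 v hbv
    have h3 : t b < t a := ht _ _ (Or.inr ⟨hab.1, hxw habx⟩)
    omega

lemma rev_empty (a b : V) : D.rev ∅ a b ↔ D.Adj a b := by
  simp [Dig.rev]

lemma noDiCycle_swap {r : V → V → Prop} (h : NoDiCycle r) : NoDiCycle (fun a b => r b a) := by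
  intro v hv
  exact h v (transGen_swap.1 hv)

lemma rev_compl {S : Set (V × V)} (h : NoDiCycle (D.rev S)) :
    NoDiCycle (D.rev (D.arcs \ S)) := by
  have : D.rev (D.arcs \ S) = fun a b => D.rev S b a := by
    funext a b
    apply propext
    constructor
    · rintro (⟨h1, h2⟩ | ⟨h1, h2⟩)
      · right
        refine ⟨h1, ?_⟩
        by_contra h3
        exact h2 ⟨h1, h3⟩
      · left
        exact ⟨h1, h2.2⟩
    · rintro (⟨h1, h2⟩ | ⟨h1, h2⟩)
      · right
        exact ⟨h1, h1, h2⟩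
      · left
        exact ⟨h1, fun h3 => h3.2 h2⟩
  rw [this]
  exact noDiCycle_swap h

lemma rev_empty_eq : D.rev ∅ = D.Adj := by
  funext a b
  exact propext (rev_empty a b)

theorem no_transitive [Finite V] (hD : D.Acyclic) (hss : IsSupersolvableLattice (AR D)) {u v : V}
    (huv : D.Adj u v) : ¬ ReflTransGen (fun a b => D.Adj a b ∧ (a, b) ≠ (u, v)) u v := by
  intro hpath
  obtain ⟨-, M, hM, hcanc⟩ := generic_of_ss _ hss
  have hfin : Finite (AR D) := by unfold AR; infer_instance
  let bot : AR D := ⟨∅, by simp, by rw [rev_empty_eq]; exact hD⟩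
  let top : AR D := ⟨D.arcs, le_rfl, by
    have := rev_compl (D := D) (S := ∅) (by rw [rev_empty_eq]; exact hD)
    simpa using this⟩
  have mem_of_comp : ∀ x : AR D, (∀ y ∈ M, y ≤ x ∨ x ≤ y) → x ∈ M := by
    intro x hx
    have h1 : IsChain (· ≤ ·) (insert x M) := by
      apply hM.1.insert
      intro b hb _
      exact (hx b hb).symm
    have := hM.2 h1 (Set.subset_insert _ _)
    rw [this]
    exact Set.mem_insert _ _
  have hbot : bot ∈ M := mem_of_comp bot fun y _ => Or.inr (Set.empty_subset _)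
  have htop : top ∈ M := mem_of_comp top fun y _ => Or.inl y.2.1
  obtain ⟨x, hxA, hxmax⟩ := (Set.toFinite {x | x ∈ M ∧ (u, v) ∉ x.1}).exists_maximal
    ⟨bot, hbot, fun h => h⟩
  obtain ⟨y, hyA, hymin⟩ := (Set.toFinite {x | x ∈ M ∧ (u, v) ∈ x.1}).exists_minimal
    ⟨top, htop, huv⟩
  have hM1 : ∀ w ∈ M, w ≤ x ∨ y ≤ w := by
    intro w hw
    by_cases hf : (u, v) ∈ w.1
    · right
      rcases hM.1.total hyA.1 hw with h | h
      · exact h
      · exact hymin ⟨hw, hf⟩ h
    · left
      rcases hM.1.total hw hxA.1 with h | h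
      · exact h
      · exact hxmax ⟨hw, hf⟩ h
  have hxy : x ≤ y := by
    rcases hM.1.total hxA.1 hyA.1 with h | h
    · exact h
    · exact absurd (h hyA.2) hxA.2
  obtain ⟨e, he, hac⟩ := exists_flip x.2.2 y.2.1 y.2.2 hxy ⟨(u, v), hyA.2, hxA.2⟩
  let x' : AR D := ⟨insert e x.1, Set.insert_subset (y.2.1 he.1) x.2.1, hac⟩
  have hxx' : x ≤ x' := Set.subset_insert _ _
  have hx'y : x' ≤ y := Set.insert_subset he.1 hxy
  have hx'M : x' ∈ M := mem_of_comp x' fun w hw => by
    rcases hM1 w hw with h | h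
    · exact Or.inl (h.trans hxx')
    · exact Or.inr (hx'y.trans h)
  have hyx' : y = x' := by
    rcases hM1 x' hx'M with h | h
    · exact absurd (h (Set.mem_insert e x.1)) he.2
    · exact le_antisymm h hx'y
  have heuv : (u, v) = e := by
    have h1 : (u, v) ∈ x'.1 := hyx' ▸ hyA.2
    rcases h1 with h1 | h1
    · exact h1
    · exact absurd h1 hxA.2
  have hyeq : y.1 = insert (u, v) x.1 := by rw [hyx', heuv]
  obtain ⟨z, hz1, hz2⟩ := key hD huv hyeq hpath
  have := hcanc x hxA.1 y hyA.1 z hxy (by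
    intro w h1 h2
    have h3 := hz2 w h1 h2
    intro e' he'
    rw [hyeq] at he'
    rcases he' with rfl | he'
    · exact h3
    · exact h1 he') (by
    intro w h1 h2 e' he'
    have h3 := h1 he'
    rw [hyeq] at h3
    rcases h3 with rfl | h3
    · exact absurd (h2 he') hz1
    · exact h3)
  exact hxA.2 (this ▸ hyA.2)

/-! ### Without transitive arcs the underlying graph is a forest -/

lemma graph_adj (D : Dig V) (a b : V) : D.graph.Adj a b ↔ D.Adj a b ∨ D.Adj b a := by
  unfold Dig.graph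
  rw [SimpleGraph.fromRel_adj]
  constructor
  · exact fun h => h.2
  · rintro (h | h)
    · exact ⟨fun he => D.asymm a b h (he ▸ he ▸ h), Or.inl h⟩
    · exact ⟨fun he => D.asymm b a h (he ▸ he ▸ h), Or.inr h⟩

lemma single_mem [Finite V] (hD : D.Acyclic)
    (hnt : ∀ u v, D.Adj u v → ¬ ReflTransGen (fun a b => D.Adj a b ∧ (a, b) ≠ (u, v)) u v)
    {u v : V} (huv : D.Adj u v) : NoDiCycle (D.rev {(u, v)}) := by
  have := flip_one (D := D) (S := ∅) (by rw [rev_empty_eq]; exact hD) huv
    (by simpa only [rev_empty_eq] using hnt u v huv)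
  simpa using this

lemma exists_join [Finite V] (hD : D.Acyclic) (hss : IsSupersolvableLattice (AR D))
    (hnt : ∀ u v, D.Adj u v → ¬ ReflTransGen (fun a b => D.Adj a b ∧ (a, b) ≠ (u, v)) u v)
    (F : Finset (V × V)) (hF : ∀ e ∈ F, D.Adj e.1 e.2) :
    ∃ s : AR D, (∀ e ∈ F, e ∈ s.1) ∧ ∀ t : AR D, (∀ e ∈ F, e ∈ t.1) → s ≤ t := by
  classical
  induction F using Finset.induction_on with
  | empty =>
    exact ⟨⟨∅, by simp, by rw [rev_empty_eq]; exact hD⟩, by simp, fun t _ => Set.empty_subset _⟩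
  | insert e F he ih =>
    obtain ⟨s, hs1, hs2⟩ := ih (fun e' he' => hF e' (Finset.mem_insert_of_mem he'))
    obtain ⟨hj, -⟩ := generic_of_ss _ hss
    have hadj := hF e (Finset.mem_insert_self _ _)
    let x : AR D := ⟨{e}, by simpa [Dig.arcs] using hadj, single_mem hD hnt hadj⟩
    obtain ⟨z, h1, h2, h3⟩ := hj s x
    refine ⟨z, ?_, ?_⟩
    · intro e' he'
      rcases Finset.mem_insert.1 he' with rfl | he'
      · exact h2 rfl
      · exact h1 (hs1 e' he')
    · intro t ht
      apply h3 t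
      · exact hs2 t fun e' he' => ht e' (Finset.mem_insert_of_mem he')
      · intro e' he'
        rw [show e' = e from he']
        exact ht e (Finset.mem_insert_self _ _)

lemma walk_back {G : SimpleGraph V} {R : V → V → Prop} {a b : V} (p : G.Walk a b)
    (h : ∀ d ∈ p.darts, R d.snd d.fst) : ReflTransGen R b a := by
  induction p with
  | nil => exact ReflTransGen.refl
  | cons hadj p ih =>
    have h1 := ih (fun d hd => h d (by simp [hd]))
    exact h1.tail (h ⟨(_, _), hadj⟩ (by simp))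

theorem forest_of_ss [Finite V] (hD : D.Acyclic) (hss : IsSupersolvableLattice (AR D)) :
    D.graph.IsAcyclic := by
  classical
  cases nonempty_fintype V
  have hnt : ∀ u v, D.Adj u v →
      ¬ ReflTransGen (fun a b => D.Adj a b ∧ (a, b) ≠ (u, v)) u v :=
    fun u v huv => no_transitive hD hss huv
  intro v c hc
  let F : Finset (V × V) := Finset.univ.filter
    (fun e => D.Adj e.1 e.2 ∧ ∃ d ∈ c.darts, d.toProd = e)
  obtain ⟨s, hs1, hs2⟩ := exists_join hD hss hnt F (by simp only [F]; simp; tauto)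
  have hnd : (c.darts.map SimpleGraph.Dart.edge).Nodup := hc.edges_nodup
  have key : ∀ d ∈ c.darts, D.rev s.1 d.snd d.fst := by
    intro d hd
    rcases (graph_adj D d.fst d.snd).1 d.adj with h | h
    · right
      refine ⟨h, hs1 _ ?_⟩
      simp only [F, Finset.mem_filter, Finset.mem_univ, true_and]
      exact ⟨h, d, hd, rfl⟩
    · left
      refine ⟨h, fun hmem => ?_⟩
      let t : AR D := ⟨D.arcs \ {(d.snd, d.fst)}, Set.sdiff_subset,
        rev_compl (single_mem hD hnt h)⟩
      have ht : s ≤ t := by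
        apply hs2
        intro e he
        simp only [F, Finset.mem_filter, Finset.mem_univ, true_and] at he
        obtain ⟨h1, d', hd', rfl⟩ := he
        refine ⟨h1, fun h2 => ?_⟩
        have h3 : d'.toProd = (d.snd, d.fst) := h2
        have h4 : d'.edge = d.edge := by
          rw [SimpleGraph.dart_edge_eq_iff]
          right
          ext <;> simp [h3]
        have h5 : d' = d := List.inj_on_of_nodup_map hnd hd' hd h4
        rw [h5] at h3
        have h6 : d.fst = d.snd := congrArg Prod.fst h3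
        exact d.adj.ne h6
      exact (ht hmem).2 rfl
  cases c with
  | nil => exact hc.ne_nil rfl
  | @cons _ w _ hadj p =>
    have h1 : ReflTransGen (D.rev s.1) v w := walk_back p (fun d hd => key d (by simp [hd]))
    have h2 : D.rev s.1 w v := key ⟨(v, w), hadj⟩ (by simp)
    exact s.2.2 v (TransGen.tail' h1 h2)

/-! ### Forests give Boolean lattices -/

lemma rev_asymm (S : Set (V × V)) (a b : V) (h1 : D.rev S a b) (h2 : D.rev S b a) : False := by
  rcases h1 with ⟨h1, h1'⟩ | ⟨h1, h1'⟩ <;> rcases h2 with ⟨h2, h2'⟩ | ⟨h2, h2'⟩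
  · exact D.asymm _ _ h1 h2
  · exact h1' h2'
  · exact h2' h1'
  · exact D.asymm _ _ h1 h2

lemma rev_graph {S : Set (V × V)} {a b : V} (h : D.rev S a b) : D.graph.Adj a b := by
  rw [graph_adj]
  rcases h with h | h
  · exact Or.inl h.1
  · exact Or.inr h.1

lemma all_acyclic (hG : D.graph.IsAcyclic) (S : Set (V × V)) : NoDiCycle (D.rev S) := by
  intro a ha
  obtain ⟨b, hab, hba⟩ := TransGen.head'_iff.1 ha
  have hbr := SimpleGraph.isAcyclic_iff_forall_adj_isBridge.1 hG (rev_graph hab)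
  rw [SimpleGraph.isBridge_iff] at hbr
  apply hbr
  have key : ∀ w, ReflTransGen (D.rev S) b w →
      (D.graph.deleteEdges {s(a, b)}).Reachable b w := by
    intro w hw
    induction hw with
    | refl => exact SimpleGraph.Reachable.refl _
    | @tail c d hc hcd ih =>
      by_cases h : s(c, d) = s(a, b)
      · rw [Sym2.eq_iff] at h
        rcases h with ⟨rfl, rfl⟩ | ⟨rfl, rfl⟩
        · exact SimpleGraph.Reachable.refl _
        · exact (rev_asymm S _ _ hab hcd).elim
      · refine ih.trans (SimpleGraph.Adj.reachable ?_)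
        rw [SimpleGraph.deleteEdges_adj]
        exact ⟨rev_graph hcd, by simpa using h⟩
  exact (key a hba).symm

theorem ss_of_forest (hG : D.graph.IsAcyclic) : IsSupersolvableLattice (AR D) := by
  have hall := all_acyclic hG
  let L : DistribLattice (AR D) :=
    { (inferInstance : PartialOrder (AR D)) with
      sup := fun a b => ⟨a.1 ∪ b.1, Set.union_subset a.2.1 b.2.1, hall _⟩
      inf := fun a b => ⟨a.1 ∩ b.1, Set.inter_subset_left.trans a.2.1, hall _⟩
      le_sup_left := fun a b => Set.subset_union_left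
      le_sup_right := fun a b => Set.subset_union_right
      sup_le := fun a b c h1 h2 => Set.union_subset h1 h2
      inf_le_left := fun a b => Set.inter_subset_left
      inf_le_right := fun a b => Set.inter_subset_right
      le_inf := fun a b c h1 h2 => Set.subset_inter h1 h2
      le_sup_inf := fun a b c => by
        show (a.1 ∪ b.1) ∩ (a.1 ∪ c.1) ⊆ a.1 ∪ (b.1 ∩ c.1)
        rw [Set.union_inter_distrib_left] }
  exact ss_of_distrib _ L rfl

/-! ### Forests are peo-consistent -/

lemma exists_leaf {W : Type} [Finite W] [Nonempty W] {G : SimpleGraph W} (hG : G.IsAcyclic) :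
    ∃ v, ∀ a b, G.Adj v a → G.Adj v b → a = b := by
  classical
  cases nonempty_fintype W
  let P : ℕ → Prop := fun n => ∃ (u v : W) (p : G.Walk u v), p.IsPath ∧ p.length = n
  have hP0 : P 0 := by
    obtain ⟨w⟩ := ‹Nonempty W›
    exact ⟨w, w, SimpleGraph.Walk.nil, by simp, rfl⟩
  have hbd : ∀ n, P n → n ≤ Fintype.card W := by
    rintro n ⟨u, v, p, hp, rfl⟩
    exact hp.length_lt.le
  obtain ⟨n, ⟨u, v, p, hp, hpn⟩, hmax⟩ : ∃ n, P n ∧ ∀ m, P m → m ≤ n :=
    ⟨Nat.findGreatest P (Fintype.card W), Nat.findGreatest_spec (m := 0) (Nat.zero_le _) hP0,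
      fun m hm => Nat.le_findGreatest (hbd m hm) hm⟩
  refine ⟨v, ?_⟩
  have key : ∀ a, G.Adj v a → a = p.penultimate := by
    intro a ha
    apply hG.eq_penultimate_of_adj_end hp ha
    by_contra hns
    have := hmax (n + 1) ⟨u, a, p.concat ha, hp.concat hns ha, by simp [hpn]⟩
    omega
  intro a b ha hb
  rw [key a ha, key b hb]

theorem peo_of_forest [Finite V] (hG : D.graph.IsAcyclic) : D.PeoConsistent := by
  classical
  have key : ∀ n : ℕ, ∀ U : Set V, U.ncard = n → PeoOn D U := by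
    intro n
    induction n with
    | zero =>
      intro U hU
      rw [Set.ncard_eq_zero (Set.toFinite _)] at hU
      subst hU
      exact PeoOn.small _ Set.subsingleton_empty
    | succ n ih =>
      intro U hU
      have hne : U.Nonempty := by
        rw [Set.nonempty_iff_ne_empty]
        rintro rfl
        simp at hU
      have : Nonempty U := hne.to_subtype
      obtain ⟨⟨v, hv⟩, hleaf⟩ := exists_leaf (hG.induce U)
      have hleaf' : ∀ a ∈ U, ∀ b ∈ U, D.graph.Adj v a → D.graph.Adj v b → a = b := by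
        intro a ha b hb h1 h2
        have := hleaf ⟨a, ha⟩ ⟨b, hb⟩ h1 h2
        exact congrArg Subtype.val this
      refine PeoOn.step U v hv ?_ ?_ (ih _ ?_)
      · by_contra hcon
        push Not at hcon
        obtain ⟨⟨w, hw, hwv⟩, ⟨x, hx, hvx⟩⟩ := hcon
        have := hleaf' w hw x hx ((graph_adj D _ _).2 (Or.inr hwv)) ((graph_adj D _ _).2 (Or.inl hvx))
        subst this
        exact D.asymm _ _ hwv hvx
      · intro a ha b hb h1 h2 hab
        exact absurd (hleaf' a ha b hb h1 h2) hab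
      · rw [Set.ncard_sdiff_singleton_of_mem hv, hU]
        rfl
  exact key _ _ rfl

/-! ### The transitive tournament on three vertices -/

/-- The transitive tournament on three vertices. -/
def TT3 : Dig (Fin 3) where
  Adj a b := a < b
  asymm _ _ h := not_lt.2 h.le

/-- The condition for a set of arcs of `TT3` to be in `AR`. -/
def Cond (S : Set (Fin 3 × Fin 3)) : Prop :=
  ((0, 2) ∈ S → (0, 1) ∈ S ∨ (1, 2) ∈ S) ∧ ((0, 1) ∈ S → (1, 2) ∈ S → (0, 2) ∈ S)

lemma cond_of (S : Set (Fin 3 × Fin 3)) (h : NoDiCycle (TT3.rev S)) : Cond S := by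
  constructor
  · intro h02
    by_contra hcon
    push Not at hcon
    have e1 : TT3.rev S 0 1 := Or.inl ⟨by simp [TT3], hcon.1⟩
    have e2 : TT3.rev S 1 2 := Or.inl ⟨by simp [TT3], hcon.2⟩
    have e3 : TT3.rev S 2 0 := Or.inr ⟨by simp [TT3], h02⟩
    exact h 0 (((TransGen.single e1).tail e2).tail e3)
  · intro h01 h12
    by_contra hcon
    have e1 : TT3.rev S 1 0 := Or.inr ⟨by simp [TT3], h01⟩
    have e2 : TT3.rev S 2 1 := Or.inr ⟨by simp [TT3], h12⟩
    have e3 : TT3.rev S 0 2 := Or.inl ⟨by simp [TT3], hcon⟩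
    exact h 0 (((TransGen.single e3).tail e2).tail e1)

lemma of_cond (S : Set (Fin 3 × Fin 3)) (h : Cond S) : NoDiCycle (TT3.rev S) := by
  classical
  obtain ⟨h1, h2⟩ := h
  have key : ∃ f : Fin 3 → ℕ, (((0, 1) ∈ S → f 1 < f 0) ∧ ((0, 1) ∉ S → f 0 < f 1)) ∧
      (((1, 2) ∈ S → f 2 < f 1) ∧ ((1, 2) ∉ S → f 1 < f 2)) ∧
      (((0, 2) ∈ S → f 2 < f 0) ∧ ((0, 2) ∉ S → f 0 < f 2)) := by
    by_cases p : (0, 1) ∈ S <;> by_cases q : (1, 2) ∈ S <;> by_cases r : (0, 2) ∈ S <;>
      simp only [p, q, r, or_true, or_false, forall_true_left,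
        not_true_eq_false, not_false_eq_true, IsEmpty.forall_iff, true_and, and_true,
        imp_false] at h1 h2 ⊢
    · exact ⟨![2, 1, 0], by simp⟩
    · exact ⟨![2, 0, 1], by simp⟩
    · exact ⟨![1, 0, 2], by simp⟩
    · exact ⟨![1, 2, 0], by simp⟩
    · exact ⟨![0, 2, 1], by simp⟩
    · exact ⟨![0, 1, 2], by simp⟩
  obtain ⟨f, h01, h12, h02⟩ := key
  apply noDiCycle_of_rank f
  rintro a b (⟨hab, hs⟩ | ⟨hab, hs⟩)
  · have hab' : a < b := hab
    fin_cases a <;> fin_cases b <;> simp at hab' <;> first | exact h01.2 hs | exact h12.2 hs | exact h02.2 hs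
  · have hab' : b < a := hab
    fin_cases a <;> fin_cases b <;> simp at hab' <;> first | exact h01.1 hs | exact h12.1 hs | exact h02.1 hs

/-- The join of two sets in `AR TT3`. -/
def supS (a b : Set (Fin 3 × Fin 3)) : Set (Fin 3 × Fin 3) :=
  {e | e ∈ a ∨ e ∈ b ∨ (e = (0, 2) ∧ ((0, 1) ∈ a ∨ (0, 1) ∈ b) ∧ ((1, 2) ∈ a ∨ (1, 2) ∈ b))}

/-- The meet of two sets in `AR TT3`. -/
def infS (a b : Set (Fin 3 × Fin 3)) : Set (Fin 3 × Fin 3) :=
  {e | e ∈ a ∧ e ∈ b ∧ (e = (0, 2) → ((0, 1) ∈ a ∧ (0, 1) ∈ b) ∨ ((1, 2) ∈ a ∧ (1, 2) ∈ b))}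

lemma cond_sup {a b : Set (Fin 3 × Fin 3)} (ha : Cond a) (hb : Cond b) : Cond (supS a b) := by
  have e1 : ((0, 1) : Fin 3 × Fin 3) ≠ (0, 2) := by decide
  have e2 : ((1, 2) : Fin 3 × Fin 3) ≠ (0, 2) := by decide
  constructor
  · rintro (h | h | ⟨-, h, -⟩)
    · rcases ha.1 h with h | h
      · exact Or.inl (Or.inl h)
      · exact Or.inr (Or.inl h)
    · rcases hb.1 h with h | h
      · exact Or.inl (Or.inr (Or.inl h))
      · exact Or.inr (Or.inr (Or.inl h))
    · rcases h with h | h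
      · exact Or.inl (Or.inl h)
      · exact Or.inl (Or.inr (Or.inl h))
  · intro h1 h2
    refine Or.inr (Or.inr ⟨rfl, ?_, ?_⟩)
    · rcases h1 with h | h | ⟨h, -⟩
      · exact Or.inl h
      · exact Or.inr h
      · exact absurd h e1
    · rcases h2 with h | h | ⟨h, -⟩
      · exact Or.inl h
      · exact Or.inr h
      · exact absurd h e2

lemma cond_inf {a b : Set (Fin 3 × Fin 3)} (ha : Cond a) (hb : Cond b) : Cond (infS a b) := by
  have e1 : ((0, 1) : Fin 3 × Fin 3) ≠ (0, 2) := by decide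
  have e2 : ((1, 2) : Fin 3 × Fin 3) ≠ (0, 2) := by decide
  constructor
  · rintro ⟨h1, h2, h3⟩
    rcases h3 rfl with h | h
    · exact Or.inl ⟨h.1, h.2, fun h' => absurd h' e1⟩
    · exact Or.inr ⟨h.1, h.2, fun h' => absurd h' e2⟩
  · rintro ⟨h1, h2, -⟩ ⟨h3, h4, -⟩
    exact ⟨ha.2 h1 h3, hb.2 h2 h4, fun _ => Or.inl ⟨h1, h2⟩⟩

lemma tt3_cond (a : AR TT3) : Cond a.1 := cond_of _ a.2.2

lemma sup_le_aux {a b c : Set (Fin 3 × Fin 3)} (hc : Cond c) (h1 : a ⊆ c) (h2 : b ⊆ c) :
    supS a b ⊆ c := by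
  rintro e (he | he | ⟨rfl, h3, h4⟩)
  · exact h1 he
  · exact h2 he
  · refine hc.2 ?_ ?_
    · rcases h3 with h3 | h3
      · exact h1 h3
      · exact h2 h3
    · rcases h4 with h4 | h4
      · exact h1 h4
      · exact h2 h4

lemma le_inf_aux {a b c : Set (Fin 3 × Fin 3)} (ha : Cond a) (h1 : a ⊆ b) (h2 : a ⊆ c) :
    a ⊆ infS b c := by
  intro e he
  refine ⟨h1 he, h2 he, ?_⟩
  rintro rfl
  rcases ha.1 he with h3 | h3
  · exact Or.inl ⟨h1 h3, h2 h3⟩
  · exact Or.inr ⟨h1 h3, h2 h3⟩

lemma sup_arcs (a b : AR TT3) : supS a.1 b.1 ⊆ TT3.arcs := by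
  rintro e (h | h | ⟨rfl, -⟩)
  · exact a.2.1 h
  · exact b.2.1 h
  · show (0 : Fin 3) < 2
    decide

lemma tt3_lattice : IsLatticeOrder (AR TT3) := by
  let L : Lattice (AR TT3) :=
    { (inferInstance : PartialOrder (AR TT3)) with
      sup := fun a b => ⟨supS a.1 b.1, sup_arcs a b,
        of_cond _ (cond_sup (tt3_cond a) (tt3_cond b))⟩
      inf := fun a b => ⟨infS a.1 b.1, fun e he => a.2.1 he.1,
        of_cond _ (cond_inf (tt3_cond a) (tt3_cond b))⟩
      le_sup_left := fun a b e he => Or.inl he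
      le_sup_right := fun a b e he => Or.inr (Or.inl he)
      sup_le := fun a b c h1 h2 => sup_le_aux (tt3_cond c) h1 h2
      inf_le_left := fun a b e he => he.1
      inf_le_right := fun a b e he => he.2.1
      le_inf := fun a b c h1 h2 => le_inf_aux (tt3_cond a) h1 h2 }
  exact ⟨L, rfl⟩

lemma tt3_acyclic : TT3.Acyclic := noDiCycle_of_rank (fun v : Fin 3 => v) fun _ _ h => h

lemma tt3_graph (a b : Fin 3) : TT3.graph.Adj a b ↔ a ≠ b := by
  rw [graph_adj]
  show a < b ∨ b < a ↔ a ≠ b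
  exact lt_or_lt_iff_ne

lemma tt3_peo : TT3.PeoConsistent := by
  have hall : ∀ U : Set (Fin 3), ∀ n : ℕ, U.ncard = n → PeoOn TT3 U := by
    intro U n
    induction n generalizing U with
    | zero =>
      intro hU
      rw [Set.ncard_eq_zero (Set.toFinite _)] at hU
      subst hU
      exact PeoOn.small _ Set.subsingleton_empty
    | succ n ih =>
      intro hU
      have hne : U.Nonempty := by
        rw [Set.nonempty_iff_ne_empty]
        rintro rfl
        simp at hU
      obtain ⟨v, hv, hmax⟩ := Set.exists_max_image U (fun v => v) (Set.toFinite _) hne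
      refine PeoOn.step U v hv (Or.inr fun w hw h => ?_) ?_ (ih _ ?_)
      · exact absurd (hmax w hw) (not_le.2 h)
      · intro a _ b _ _ _ hab
        exact (tt3_graph a b).2 hab
      · rw [Set.ncard_sdiff_singleton_of_mem hv, hU]
        rfl
  exact hall _ _ rfl

lemma tt3_not_ss : ¬ IsSupersolvableLattice (AR TT3) := by
  intro h
  have h02 : TT3.Adj 0 2 := by simp [TT3]
  apply no_transitive tt3_acyclic h h02
  have e1 : TT3.Adj 0 1 ∧ ((0, 1) : Fin 3 × Fin 3) ≠ (0, 2) := ⟨by simp [TT3], by decide⟩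
  have e2 : TT3.Adj 1 2 ∧ ((1, 2) : Fin 3 × Fin 3) ≠ (0, 2) := ⟨by simp [TT3], by decide⟩
  exact ReflTransGen.tail (b := 1) (ReflTransGen.single e1) e2

theorem result :
    (∀ (V : Type) [Finite V] (D : Dig V), D.Acyclic →
      (IsSupersolvableLattice (AR D) ↔ D.graph.IsAcyclic)) ∧
    (∀ (V : Type) [Finite V] (D : Dig V), D.Acyclic →
      IsSupersolvableLattice (AR D) → D.PeoConsistent) ∧
    (∃ D : Dig (Fin 3), D.Acyclic ∧ D.PeoConsistent ∧ IsLatticeOrder (AR D) ∧
      ¬ IsSupersolvableLattice (AR D)) :=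
  ⟨fun _ _ _ hD => ⟨fun h => forest_of_ss hD h, fun h => ss_of_forest h⟩,
    fun _ _ _ hD h => peo_of_forest (forest_of_ss hD h),
    TT3, tt3_acyclic, tt3_peo, tt3_lattice, tt3_not_ss⟩

end Pool.Agent.Results.MP_af84f5_co.Forests
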